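import Pool.Agent.W871.HI.Stm3

/-!
# Invariant graphs on one cycle
-/

open Finset

namespace Pool.Agent.W903.HI

open Pool.Agent.W871.HI Classical

/-! ### Counting -/

theorem ncard_setOf {α : Type*} [Fintype α] (P : α → Prop) :
    {x | P x}.ncard = ∑ x, if P x then 1 else 0 := by
  rw [Set.ncard_eq_toFinset_card', Set.toFinset_setOf, Finset.card_filter]

theorem edge_count {V : Type*} [Fintype V] (G : SimpleGraph V) :
    2 * G.edgeSet.ncard = ∑ a, ∑ b, if G.Adj a b then 1 else 0 := by
  have h := G.sum_degrees_eq_twice_card_edges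
  rw [Set.ncard_eq_toFinset_card']
  have h1 : G.edgeSet.toFinset = G.edgeFinset := by
    ext e; simp
  rw [h1, ← h]
  refine Finset.sum_congr rfl fun a _ => ?_
  rw [← Finset.card_filter]
  rw [← SimpleGraph.card_neighborFinset_eq_degree]
  congr 1
  ext b
  simp

theorem finRotate_val {l : ℕ} (u : Fin l) : (finRotate l u).val = (u.val + 1) % l := by
  cases l with
  | zero => exact u.elim0
  | succ n =>
    rw [finRotate_succ_apply, Fin.val_add]
    cases n with
    | zero => simp
    | succ n => simp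

/-! ### One cycle -/

section One

variable {n : ℕ}

/-- The distance to zero on the cycle. -/
def idx (c : Fin (n + 1)) : ℕ := min c.val (n + 1 - c.val)

theorem idx_zero : idx (0 : Fin (n + 1)) = 0 := by simp [idx]

theorem val_neg_of_ne {c : Fin (n + 1)} (h : c ≠ 0) : (-c).val = n + 1 - c.val := by
  have h1 : c.val ≠ 0 := fun h2 => h (Fin.ext (by simpa using h2))
  have h2 := c.isLt
  rw [Fin.coe_neg, Nat.mod_eq_of_lt (by omega)]

theorem idx_neg (c : Fin (n + 1)) : idx (-c) = idx c := by
  by_cases h : c = 0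
  · subst h; simp
  · unfold idx
    rw [val_neg_of_ne h]
    have h2 := c.isLt
    omega

theorem idx_pos {c : Fin (n + 1)} (h : c ≠ 0) : 1 ≤ idx c ∧ idx c ≤ (n + 1) / 2 := by
  have h1 : c.val ≠ 0 := fun h2 => h (Fin.ext (by simpa using h2))
  have h2 := c.isLt
  unfold idx
  omega

/-- The graph of the distances `i + 1`, `i ∈ F`. -/
def gr (F : Finset (Fin ((n + 1) / 2))) : SimpleGraph (Fin (n + 1)) where
  Adj a b := ∃ i ∈ F, idx (b - a) = i.val + 1
  symm := ⟨by
    rintro a b ⟨i, hi, h⟩
    exact ⟨i, hi, by rw [← h, ← idx_neg, neg_sub]⟩⟩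
  loopless := ⟨by
    rintro a ⟨i, hi, h⟩
    rw [sub_self, idx_zero] at h
    omega⟩

theorem gr_inv (F : Finset (Fin ((n + 1) / 2))) : Inv (finRotate (n + 1)) (gr F) := by
  intro a b
  simp only [gr, finRotate_succ_apply, add_sub_add_right_eq_sub]

/-- The point at distance `i + 1`. -/
def pnt (i : Fin ((n + 1) / 2)) : Fin (n + 1) := ⟨i.val + 1, by have := i.isLt; omega⟩

theorem idx_pnt (i : Fin ((n + 1) / 2)) : idx (pnt i) = i.val + 1 := by
  have := i.isLt
  simp only [idx, pnt]
  omega

theorem gr_adj_zero (F : Finset (Fin ((n + 1) / 2))) (i : Fin ((n + 1) / 2)) :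
    (gr F).Adj 0 (pnt i) ↔ i ∈ F := by
  simp only [gr, sub_zero, idx_pnt]
  constructor
  · rintro ⟨j, hj, h⟩
    have : i = j := Fin.ext (by omega)
    rwa [this]
  · intro h
    exact ⟨i, h, rfl⟩

theorem inv_add {H : SimpleGraph (Fin (n + 1))} (hH : Inv (finRotate (n + 1)) H) (j : ℕ)
    (a b : Fin (n + 1)) :
    H.Adj (a + Fin.ofNat (n + 1) j) (b + Fin.ofNat (n + 1) j) ↔ H.Adj a b := by
  induction j with
  | zero =>
    have h : Fin.ofNat (n + 1) 0 = 0 := rfl
    rw [h, add_zero, add_zero]
  | succ j ih =>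
    have h : Fin.ofNat (n + 1) (j + 1) = Fin.ofNat (n + 1) j + 1 := by
      apply Fin.ext
      rw [Fin.val_add]
      cases n with
      | zero => simp [Fin.ofNat, Nat.mod_one]
      | succ n => simp [Fin.ofNat]
    rw [← ih, ← hH (a + Fin.ofNat (n + 1) j) (b + Fin.ofNat (n + 1) j), finRotate_succ_apply,
      finRotate_succ_apply, h, add_assoc, add_assoc]

theorem inv_sub {H : SimpleGraph (Fin (n + 1))} (hH : Inv (finRotate (n + 1)) H)
    (a b : Fin (n + 1)) : H.Adj a b ↔ H.Adj 0 (b - a) := by
  have h := inv_add hH a.val 0 (b - a)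
  have h1 : Fin.ofNat (n + 1) a.val = a := Fin.ext (Nat.mod_eq_of_lt a.isLt)
  rw [h1, zero_add, sub_add_cancel] at h
  exact h

theorem eq_or_neg {c : Fin (n + 1)} (h : c ≠ 0) (i : Fin ((n + 1) / 2)) (hi : idx c = i.val + 1) :
    c = pnt i ∨ c = -pnt i := by
  have hp : pnt i ≠ 0 := fun h => by
    have := congrArg Fin.val h
    simp [pnt] at this
  by_cases h1 : c.val ≤ n + 1 - c.val
  · left
    apply Fin.ext
    simp only [idx, pnt] at hi ⊢
    omega
  · right
    apply Fin.ext
    rw [val_neg_of_ne hp]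
    have := c.isLt
    simp only [idx, pnt] at hi ⊢
    omega

theorem gr_bij : Set.BijOn (gr (n := n)) Set.univ {H | Inv (finRotate (n + 1)) H} := by
  refine ⟨fun F _ => gr_inv F, ?_, ?_⟩
  · intro F _ F' _ h
    ext i
    rw [← gr_adj_zero, ← gr_adj_zero, h]
  · intro H hH
    refine ⟨univ.filter (fun i => H.Adj 0 (pnt i)), trivial, ?_⟩
    ext a b
    rw [inv_sub hH a b]
    simp only [gr, Finset.mem_filter, Finset.mem_univ, true_and]
    constructor
    · rintro ⟨i, hi, h⟩
      have hne : b - a ≠ 0 := by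
        intro h0
        rw [h0, idx_zero] at h
        omega
      rcases eq_or_neg hne i h with h1 | h1
      · rwa [h1]
      · rw [h1, ← zero_sub, ← inv_sub hH]
        exact hi.symm
    · intro h
      have hne : b - a ≠ 0 := fun h0 => by
        rw [h0] at h
        exact H.irrefl h
      obtain ⟨h1, h2⟩ := idx_pos hne
      refine ⟨⟨idx (b - a) - 1, by omega⟩, ?_, ?_⟩
      · rcases eq_or_neg hne ⟨idx (b - a) - 1, by omega⟩ (by simp only; omega) with h3 | h3
        · rwa [← h3]
        · rw [h3, ← zero_sub, ← inv_sub hH] at h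
          exact h.symm
      · simp only; omega

/-- The number of points at distance `i + 1`. -/
def cn (n : ℕ) (i : Fin ((n + 1) / 2)) : ℕ := if 2 * (i.val + 1) = n + 1 then 1 else 2

/-- The number of lines of length `i + 1`. -/
def ce (n : ℕ) (i : Fin ((n + 1) / 2)) : ℕ := if 2 * (i.val + 1) = n + 1 then (n + 1) / 2 else n + 1

theorem card_idx (i : Fin ((n + 1) / 2)) :
    (∑ c : Fin (n + 1), if idx c = i.val + 1 then 1 else 0) = cn n i := by
  have hp : pnt i ≠ 0 := fun h => by
    have := congrArg Fin.val h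
    simp [pnt] at this
  rw [← Finset.card_filter]
  have h1 : univ.filter (fun c : Fin (n + 1) => idx c = i.val + 1) = {pnt i, -pnt i} := by
    ext c
    simp only [Finset.mem_filter, Finset.mem_univ, true_and, Finset.mem_insert,
      Finset.mem_singleton]
    constructor
    · intro h
      refine eq_or_neg ?_ i h
      rintro rfl
      rw [idx_zero] at h
      omega
    · rintro (rfl | rfl)
      · exact idx_pnt i
      · rw [idx_neg]; exact idx_pnt i
  rw [h1]
  unfold cn
  split_ifs with h2
  · have h3 : -pnt i = pnt i := by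
      apply Fin.ext
      rw [val_neg_of_ne hp]
      simp only [pnt]
      omega
    rw [h3]
    simp
  · rw [Finset.card_pair]
    intro h3
    have := congrArg Fin.val h3
    rw [val_neg_of_ne hp] at this
    simp only [pnt] at this
    omega

theorem nbr_count (F : Finset (Fin ((n + 1) / 2))) (a : Fin (n + 1)) :
    (∑ b, if (gr F).Adj a b then 1 else 0) = ∑ i ∈ F, cn n i := by
  have h1 : (∑ b, if (gr F).Adj a b then 1 else 0) =
      ∑ c : Fin (n + 1), if ∃ i ∈ F, idx c = i.val + 1 then 1 else 0 := by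
    refine Fintype.sum_equiv (Equiv.subRight a) _ _ fun b => ?_
    by_cases h : (gr F).Adj a b
    · rw [if_pos h, if_pos (show ∃ i ∈ F, idx ((Equiv.subRight a) b) = i.val + 1 from h)]
    · rw [if_neg h, if_neg (show ¬ ∃ i ∈ F, idx ((Equiv.subRight a) b) = i.val + 1 from h)]
  rw [h1]
  have h2 : ∀ c : Fin (n + 1), (if ∃ i ∈ F, idx c = i.val + 1 then 1 else 0) =
      ∑ i ∈ F, if idx c = i.val + 1 then 1 else 0 := by
    intro c
    split_ifs with h
    · obtain ⟨i, hi, h⟩ := h
      rw [Finset.sum_eq_single_of_mem i hi, if_pos h]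
      intro j _ hj
      rw [if_neg]
      intro h3
      exact hj (Fin.ext (by omega))
    · symm
      refine Finset.sum_eq_zero fun i hi => if_neg fun h3 => h ⟨i, hi, h3⟩
  simp only [h2]
  rw [Finset.sum_comm]
  exact Finset.sum_congr rfl fun i _ => card_idx i

theorem edge_gr (F : Finset (Fin ((n + 1) / 2))) : (gr F).edgeSet.ncard = ∑ i ∈ F, ce n i := by
  have h1 := edge_count (gr F)
  simp only [nbr_count, Finset.sum_const, Finset.card_univ, Fintype.card_fin, smul_eq_mul] at h1
  have h2 : (n + 1) * ∑ i ∈ F, cn n i = 2 * ∑ i ∈ F, ce n i := by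
    rw [Finset.mul_sum, Finset.mul_sum]
    refine Finset.sum_congr rfl fun i _ => ?_
    unfold cn ce
    split_ifs with h
    · omega
    · ring
  omega

theorem parA_aux :
    (∑ᶠ H ∈ {H : SimpleGraph (Fin (n + 1)) | Inv (finRotate (n + 1)) H},
      (Polynomial.C (x ^ H.edgeSet.ncard) : Polynomial R) *
        Polynomial.X ^ (H.neighborSet 0).ncard) =
    ∏ i : Fin ((n + 1) / 2), (1 + (Polynomial.C (x ^ ce n i) : Polynomial R) *
      Polynomial.X ^ cn n i) := by
  rw [← finsum_mem_eq_of_bijOn (gr (n := n)) gr_bij (f := fun F =>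
    (Polynomial.C (x ^ (gr F).edgeSet.ncard) : Polynomial R) *
        Polynomial.X ^ ((gr F).neighborSet 0).ncard) fun F _ => rfl]
  rw [finsum_mem_univ, finsum_eq_sum_of_fintype, Finset.prod_one_add, Finset.powerset_univ]
  refine Finset.sum_congr rfl fun F _ => ?_
  have h1 : ((gr F).neighborSet 0).ncard = ∑ i ∈ F, cn n i := by
    have : (gr F).neighborSet 0 = {b | (gr F).Adj 0 b} := rfl
    rw [this, ncard_setOf, nbr_count]
  rw [h1, edge_gr, Finset.prod_mul_distrib, Finset.prod_pow_eq_pow_sum, ← map_prod,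
    Finset.prod_pow_eq_pow_sum]

end One

theorem parA : S_parA := by
  intro l hl
  obtain ⟨n, rfl⟩ : ∃ n, l = n + 1 := ⟨l - 1, by omega⟩
  have h := parA_aux (n := n)
  have h0 : (⟨0, hl⟩ : Fin (n + 1)) = 0 := rfl
  rw [h0, h]
  unfold selfP
  rcases Nat.even_or_odd' (n + 1) with ⟨c, hc | hc⟩
  · rw [if_pos ⟨c, by omega⟩]
    obtain ⟨c, rfl⟩ : ∃ c', c = c' + 1 := ⟨c - 1, by omega⟩
    have e1 : (n + 1) / 2 = c + 1 := by omega
    have e2 : (n + 1 - 1) / 2 = c := by omega
    rw [e2]
    have key : ∀ N (hN : (n + 1) / 2 = N + 1), c = N → ∏ i : Fin ((n + 1) / 2),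
        (1 + (Polynomial.C (x ^ ce n i) : Polynomial R) * Polynomial.X ^ cn n i) =
        (1 + Polynomial.C (x ^ (n + 1)) * Polynomial.X ^ 2) ^ N *
          (1 + Polynomial.C (x ^ ((n + 1) / 2)) * Polynomial.X) := by
      intro N hN hcN
      rw [← Fin.prod_congr' _ hN.symm, Fin.prod_univ_castSucc]
      congr 1
      · rw [Finset.prod_congr rfl (g := fun _ => (1 + Polynomial.C (x ^ (n + 1)) *
          (Polynomial.X : Polynomial R) ^ 2)), Finset.prod_const, Finset.card_univ,
          Fintype.card_fin]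
        intro i _
        have h1 : ¬ 2 * (((Fin.cast hN.symm i.castSucc) : Fin ((n + 1) / 2)).val + 1) = n + 1 := by
          have := i.isLt
          simp only [Fin.val_cast, Fin.val_castSucc]
          omega
        unfold ce cn
        rw [if_neg h1, if_neg h1]
      · have h1 : 2 * (((Fin.cast hN.symm (Fin.last N)) : Fin ((n + 1) / 2)).val + 1) = n + 1 := by
          simp only [Fin.val_cast, Fin.val_last]
          omega
        unfold ce cn
        rw [if_pos h1, if_pos h1, pow_one]
    exact key c e1 rfl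
  · rw [if_neg (by rw [Nat.not_even_iff_odd]; exact ⟨c, hc⟩), mul_one]
    have e2 : (n + 1 - 1) / 2 = (n + 1) / 2 := by omega
    rw [e2, Finset.prod_congr rfl (g := fun _ => (1 + Polynomial.C (x ^ (n + 1)) *
          (Polynomial.X : Polynomial R) ^ 2)), Finset.prod_const, Finset.card_univ,
          Fintype.card_fin]
    intro i _
    have h1 : ¬ 2 * (i.val + 1) = n + 1 := by omega
    unfold ce cn
    rw [if_neg h1, if_neg h1]

end Pool.Agent.W903.HI
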