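import Pool.Agent.W903.HI.ParA

/-!
# Invariant relations between two cycles
-/

open Finset

namespace Pool.Agent.W903.HI

open Pool.Agent.W871.HI Classical

section Two

variable {l m : ℕ}

/-- The class of a pair. -/
def cls (l m : ℕ) (p : Fin l × Fin m) : ZMod (Nat.gcd l m) :=
  (p.1.val : ZMod (Nat.gcd l m)) - (p.2.val : ZMod (Nat.gcd l m))

theorem cast_mod_left (l m a : ℕ) : ((a % l : ℕ) : ZMod (Nat.gcd l m)) = a :=
  (ZMod.natCast_eq_natCast_iff _ _ _).2 ((Nat.mod_modEq a l).of_dvd (Nat.gcd_dvd_left l m))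

theorem cast_mod_right (l m a : ℕ) : ((a % m : ℕ) : ZMod (Nat.gcd l m)) = a :=
  (ZMod.natCast_eq_natCast_iff _ _ _).2 ((Nat.mod_modEq a m).of_dvd (Nat.gcd_dvd_right l m))

theorem cls_rot (u : Fin l) (v : Fin m) : cls l m (finRotate l u, finRotate m v) = cls l m (u, v) := by
  simp only [cls, finRotate_val, cast_mod_left, cast_mod_right]
  push_cast
  ring

theorem iterate_val (u : Fin l) (j : ℕ) : ((finRotate l)^[j] u).val = (u.val + j) % l := by
  induction j with
  | zero => simp [Nat.mod_eq_of_lt u.isLt]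
  | succ j ih =>
    rw [Function.iterate_succ_apply', finRotate_val, ih, Nat.mod_add_mod, Nat.add_assoc]

/-- Invariant relations. -/
def InvE (E : Set (Fin l × Fin m)) : Prop :=
  ∀ u v, (finRotate l u, finRotate m v) ∈ E ↔ (u, v) ∈ E

theorem inv_iterate {E : Set (Fin l × Fin m)} (hE : InvE E) (j : ℕ) (u : Fin l) (v : Fin m) :
    ((finRotate l)^[j] u, (finRotate m)^[j] v) ∈ E ↔ (u, v) ∈ E := by
  induction j with
  | zero => rfl
  | succ j ih => rw [Function.iterate_succ_apply', Function.iterate_succ_apply', hE, ih]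

theorem exists_iterate {u u' : Fin l} {v v' : Fin m} (h : cls l m (u, v) = cls l m (u', v')) :
    ∃ j, (finRotate l)^[j] u = u' ∧ (finRotate m)^[j] v = v' := by
  have hu := u.isLt
  have hv := v.isLt
  have hu' := u'.isLt
  have hv' := v'.isLt
  have hc : u'.val + (l - u.val) ≡ v'.val + (m - v.val) [MOD Nat.gcd l m] := by
    rw [← ZMod.natCast_eq_natCast_iff]
    push_cast [hu.le, hv.le]
    have h1 : ((l : ℕ) : ZMod (Nat.gcd l m)) = 0 :=
      (ZMod.natCast_eq_zero_iff _ _).2 (Nat.gcd_dvd_left l m)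
    have h2 : ((m : ℕ) : ZMod (Nat.gcd l m)) = 0 :=
      (ZMod.natCast_eq_zero_iff _ _).2 (Nat.gcd_dvd_right l m)
    rw [h1, h2]
    simp only [cls] at h
    linear_combination -h
  obtain ⟨j, hj1, hj2⟩ := Nat.chineseRemainder' hc
  refine ⟨j, ?_, ?_⟩
  · apply Fin.ext
    rw [iterate_val]
    have h3 : u.val + j ≡ u'.val [MOD l] := by
      have h4 : u.val + j ≡ u.val + (u'.val + (l - u.val)) [MOD l] := Nat.ModEq.add_left _ hj1
      have h5 : u.val + (u'.val + (l - u.val)) = u'.val + l := by omega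
      rw [h5] at h4
      exact h4.trans (by simp [Nat.ModEq])
    have h6 : (u.val + j) % l = u'.val % l := h3
    rw [h6, Nat.mod_eq_of_lt hu']
  · apply Fin.ext
    rw [iterate_val]
    have h3 : v.val + j ≡ v'.val [MOD m] := by
      have h4 : v.val + j ≡ v.val + (v'.val + (m - v.val)) [MOD m] := Nat.ModEq.add_left _ hj2
      have h5 : v.val + (v'.val + (m - v.val)) = v'.val + m := by omega
      rw [h5] at h4
      exact h4.trans (by simp [Nat.ModEq])
    have h6 : (v.val + j) % m = v'.val % m := h3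
    rw [h6, Nat.mod_eq_of_lt hv']

/-- The relation with given classes. -/
def rel (l m : ℕ) (F : Finset (ZMod (Nat.gcd l m))) : Set (Fin l × Fin m) := {p | cls l m p ∈ F}

theorem gcd_le_left' (hl : 1 ≤ l) : Nat.gcd l m ≤ l := Nat.le_of_dvd hl (Nat.gcd_dvd_left l m)

theorem gcd_pos' (hl : 1 ≤ l) : 0 < Nat.gcd l m := Nat.gcd_pos_of_pos_left _ hl

theorem rel_bij (hl : 1 ≤ l) (hm : 1 ≤ m) : Set.BijOn (rel l m) Set.univ {E | InvE E} := by
  haveI : NeZero (Nat.gcd l m) := ⟨(gcd_pos' hl).ne'⟩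
  refine ⟨fun F _ u v => ?_, ?_, ?_⟩
  · simp only [rel, Set.mem_setOf_eq, cls_rot]
  · intro F _ F' _ h
    ext c
    have hc : c.val < l := (ZMod.val_lt c).trans_le (gcd_le_left' hl)
    have h1 : cls l m (⟨c.val, hc⟩, ⟨0, hm⟩) = c := by
      simp [cls]
    have h2 : (⟨c.val, hc⟩, ⟨0, hm⟩) ∈ rel l m F ↔ (⟨c.val, hc⟩, ⟨0, hm⟩) ∈ rel l m F' := by rw [h]
    simpa only [rel, Set.mem_setOf_eq, h1] using h2
  · intro E hE
    refine ⟨univ.filter (fun c => ∃ p ∈ E, cls l m p = c), trivial, ?_⟩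
    ext ⟨u, v⟩
    simp only [rel, Set.mem_setOf_eq, Finset.mem_filter, Finset.mem_univ, true_and]
    constructor
    · rintro ⟨⟨u', v'⟩, hp, h⟩
      obtain ⟨j, h1, h2⟩ := exists_iterate h
      rw [← h1, ← h2, inv_iterate hE]
      exact hp
    · intro h
      exact ⟨_, h, rfl⟩

/-- The residues are equidistributed. -/
theorem card_res {g m : ℕ} (hg : 0 < g) (hgm : g ∣ m) (c : ZMod g) :
    (∑ v : Fin m, if (v.val : ZMod g) = c then 1 else 0) = m / g := by
  haveI : NeZero g := ⟨hg.ne'⟩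
  rw [← Finset.card_filter]
  have h1 : (univ.filter (fun v : Fin m => (v.val : ZMod g) = c)).card =
      ((range m).filter (fun j => j ≡ c.val [MOD g])).card := by
    rw [← Finset.card_image_of_injective _ Fin.val_injective]
    congr 1
    ext j
    simp only [Finset.mem_image, Finset.mem_filter, Finset.mem_univ, true_and, Finset.mem_range]
    constructor
    · rintro ⟨v, h, rfl⟩
      refine ⟨v.isLt, ?_⟩
      rw [← ZMod.natCast_eq_natCast_iff, h, ZMod.natCast_zmod_val]
    · rintro ⟨h1, h2⟩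
      refine ⟨⟨j, h1⟩, ?_, rfl⟩
      rw [← ZMod.natCast_eq_natCast_iff, ZMod.natCast_zmod_val] at h2
      exact h2
  rw [h1, ← Nat.count_eq_card_filter_range, Nat.count_modEq_card _ hg]
  obtain ⟨t, rfl⟩ := hgm
  simp

theorem card_right (hl : 1 ≤ l) (F : Finset (ZMod (Nat.gcd l m))) (u : Fin l) :
    (∑ v : Fin m, if (u, v) ∈ rel l m F then 1 else 0) = F.card * (m / Nat.gcd l m) := by
  have h1 : ∀ v : Fin m, (if (u, v) ∈ rel l m F then 1 else 0) =
      ∑ c ∈ F, if (v.val : ZMod (Nat.gcd l m)) = u.val - c then 1 else 0 := by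
    intro v
    simp only [rel, cls, Set.mem_setOf_eq]
    split_ifs with h
    · rw [Finset.sum_eq_single_of_mem _ h]
      · rw [if_pos (by ring)]
      · intro c _ hc
        rw [if_neg]
        intro h2
        exact hc (by rw [h2]; ring)
    · symm
      refine Finset.sum_eq_zero fun c hc => if_neg fun h2 => h ?_
      rw [h2]
      have : (u.val : ZMod (Nat.gcd l m)) - (u.val - c) = c := by ring
      rwa [this]
  simp only [h1]
  rw [Finset.sum_comm, Finset.sum_congr rfl (g := fun _ => m / Nat.gcd l m)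
    (fun c _ => card_res (gcd_pos' hl) (Nat.gcd_dvd_right l m) _), Finset.sum_const, smul_eq_mul]

theorem card_left (hl : 1 ≤ l) (F : Finset (ZMod (Nat.gcd l m))) (v : Fin m) :
    (∑ u : Fin l, if (u, v) ∈ rel l m F then 1 else 0) = F.card * (l / Nat.gcd l m) := by
  have h1 : ∀ u : Fin l, (if (u, v) ∈ rel l m F then 1 else 0) =
      ∑ c ∈ F, if (u.val : ZMod (Nat.gcd l m)) = v.val + c then 1 else 0 := by
    intro u
    simp only [rel, cls, Set.mem_setOf_eq]
    split_ifs with h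
    · rw [Finset.sum_eq_single_of_mem _ h]
      · rw [if_pos (by ring)]
      · intro c _ hc
        rw [if_neg]
        intro h2
        exact hc (by rw [h2]; ring)
    · symm
      refine Finset.sum_eq_zero fun c hc => if_neg fun h2 => h ?_
      rw [h2]
      have : (v.val : ZMod (Nat.gcd l m)) + c - v.val = c := by ring
      rwa [this]
  simp only [h1]
  rw [Finset.sum_comm, Finset.sum_congr rfl (g := fun _ => l / Nat.gcd l m)
    (fun c _ => card_res (gcd_pos' hl) (Nat.gcd_dvd_left l m) _), Finset.sum_const, smul_eq_mul]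

theorem card_all (hl : 1 ≤ l) (F : Finset (ZMod (Nat.gcd l m))) :
    (rel l m F).ncard = F.card * Nat.lcm l m := by
  have h1 : (rel l m F) = {p | p ∈ rel l m F} := rfl
  rw [h1, ncard_setOf, Fintype.sum_prod_type]
  simp only [card_right hl, Finset.sum_const, Finset.card_univ, Fintype.card_fin, smul_eq_mul]
  have h2 : Nat.lcm l m = l * (m / Nat.gcd l m) := by
    rw [Nat.lcm, Nat.mul_div_assoc _ (Nat.gcd_dvd_right l m)]
  rw [h2]
  ring

end Two

theorem parB : S_parB := by
  intro l m hl hm A _ _ a b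
  haveI : NeZero (Nat.gcd l m) := ⟨(gcd_pos' hl).ne'⟩
  have h := finsum_mem_eq_of_bijOn (rel l m) (rel_bij hl hm) (f := fun F =>
    algebraMap R A (x ^ (rel l m F).ncard) * a ^ {v | ((⟨0, hl⟩ : Fin l), v) ∈ rel l m F}.ncard *
      b ^ {u | (u, (⟨0, hm⟩ : Fin m)) ∈ rel l m F}.ncard) (g := fun E =>
    algebraMap R A (x ^ E.ncard) * a ^ {v | ((⟨0, hl⟩ : Fin l), v) ∈ E}.ncard *
      b ^ {u | (u, (⟨0, hm⟩ : Fin m)) ∈ E}.ncard) (fun F _ => rfl)
  have h2 : {E : Set (Fin l × Fin m) | InvE E} = {E : Set (Fin l × Fin m) |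
    ∀ u v, (finRotate l u, finRotate m v) ∈ E ↔ (u, v) ∈ E} := rfl
  rw [← h2, ← h, finsum_mem_univ, finsum_eq_sum_of_fintype]
  have h3 : ∀ F : Finset (ZMod (Nat.gcd l m)),
      algebraMap R A (x ^ (rel l m F).ncard) * a ^ {v | ((⟨0, hl⟩ : Fin l), v) ∈ rel l m F}.ncard *
      b ^ {u | (u, (⟨0, hm⟩ : Fin m)) ∈ rel l m F}.ncard =
      (algebraMap R A (x ^ Nat.lcm l m) * a ^ (m / Nat.gcd l m) * b ^ (l / Nat.gcd l m)) ^ F.card *
        1 ^ (Nat.gcd l m - F.card) := by
    intro F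
    rw [ncard_setOf, ncard_setOf, card_right hl, card_left hl, card_all hl]
    rw [one_pow, mul_one, mul_pow, mul_pow, ← pow_mul, ← pow_mul, map_pow, map_pow, ← pow_mul,
      mul_comm (m / _), mul_comm (l / _), mul_comm (Nat.lcm l m)]
  simp only [h3]
  have h4 := Finset.sum_pow_mul_eq_add_pow (algebraMap R A (x ^ Nat.lcm l m) *
    a ^ (m / Nat.gcd l m) * b ^ (l / Nat.gcd l m)) (1 : A) (univ : Finset (ZMod (Nat.gcd l m)))
  rw [Finset.powerset_univ, Finset.card_univ, ZMod.card] at h4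
  rw [h4, pairP, add_comm]

end Pool.Agent.W903.HI
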