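import Pool.Agent.W903.HI.ParB

/-!
# Invariant graphs of a product of rotations
-/

open Finset

namespace Pool.Agent.W903.HI

open Pool.Agent.W871.HI Classical

/-! ### Generalities -/

/-- Pairs of positions. -/
abbrev Pr (k : ℕ) := {p : Fin k × Fin k // p.1 < p.2}

theorem prod_Pr {M : Type*} [CommMonoid M] {k : ℕ} (f : Fin k → Fin k → M) :
    ∏ p : Pr k, f p.1.1 p.1.2 = ∏ i, ∏ j ∈ Ioi i, f i j := by
  rw [← Finset.prod_subtype (univ.filter fun p : Fin k × Fin k => p.1 < p.2) (by simp)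
    (fun p => f p.1 p.2), Finset.prod_filter, Fintype.prod_prod_type]
  refine Finset.prod_congr rfl fun i _ => ?_
  rw [← Finset.prod_filter]
  refine Finset.prod_congr ?_ fun _ _ => rfl
  ext j
  simp

theorem sum_Pr {M : Type*} [AddCommMonoid M] {k : ℕ} (f : Fin k → Fin k → M) :
    ∑ p : Pr k, f p.1.1 p.1.2 = ∑ i, ∑ j ∈ Ioi i, f i j :=
  prod_Pr (M := Multiplicative M) f

theorem sum_sym {k : ℕ} (A : Fin k → Fin k → ℕ) (hA : ∀ i j, A i j = A j i) :
    ∑ i, ∑ j, A i j = ∑ i, A i i + 2 * ∑ p : Pr k, A p.1.1 p.1.2 := by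
  have h1 : ∑ i, ∑ j, A i j = ∑ i, (A i i + ∑ j ∈ {i}ᶜ, A i j) := by
    refine Finset.sum_congr rfl fun i _ => ?_
    rw [← Finset.sum_compl_add_sum {i}, Finset.sum_singleton, add_comm]
  have h2 : ∑ i, ∑ j ∈ {i}ᶜ, A i j = ∑ i, ∑ j ∈ Ioi i, (A j i + A i j) := by
    rw [Finset.sum_sum_Ioi_add_eq_sum_sum_off_diag]
    exact Finset.sum_congr rfl fun i _ => Finset.sum_congr rfl fun j _ => hA i j
  rw [h1, Finset.sum_add_distrib, h2, sum_Pr, Finset.mul_sum]
  congr 1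
  refine Finset.sum_congr rfl fun i _ => ?_
  rw [Finset.mul_sum]
  refine Finset.sum_congr rfl fun j _ => ?_
  rw [hA j i]; ring

theorem prod_sym {M : Type*} [CommMonoid M] {k : ℕ} (f : Fin k → Fin k → M) :
    (∏ i, f i i) * ∏ p : Pr k, (f p.1.1 p.1.2 * f p.1.2 p.1.1) = ∏ i, ∏ j, f i j := by
  have h1 : ∏ i, ∏ j, f i j = ∏ i, ∏ j, f j i := Finset.prod_comm
  have h2 : ∏ i, ∏ j, f j i = ∏ i, (f i i * ∏ j ∈ {i}ᶜ, f j i) := by
    refine Finset.prod_congr rfl fun i _ => ?_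
    rw [← Finset.prod_compl_mul_prod {i}, Finset.prod_singleton, mul_comm]
  have h3 : ∏ i, (f i i * ∏ j ∈ {i}ᶜ, f j i) =
      (∏ i, f i i) * ∏ i, ∏ j ∈ Ioi i, (f j i * f i j) := by
    rw [Finset.prod_mul_distrib, Finset.prod_prod_Ioi_mul_eq_prod_prod_off_diag]
  rw [h1, h2, h3, ← prod_Pr (fun i j => f j i * f i j)]
  congr 1
  exact Finset.prod_congr rfl fun p _ => mul_comm _ _

/-- The sum of the coefficients with allowed exponents. -/
theorem sum_coeff {k : ℕ} {ι : Type*} (s : Finset ι) (d : ι → (Fin k →₀ ℕ)) (c : ι → R)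
    (Q : MvPolynomial (Fin k) R) (hQ : Q = ∑ a ∈ s, MvPolynomial.monomial (d a) (c a))
    (p : (Fin k →₀ ℕ) → Prop) [DecidablePred p] :
    ∑ e ∈ Q.support with p e, MvPolynomial.coeff e Q = ∑ a ∈ s with p (d a), c a := by
  have h1 : ∑ e ∈ Q.support with p e, MvPolynomial.coeff e Q =
      ∑ e ∈ (Q.support ∪ s.image d) with p e, MvPolynomial.coeff e Q := by
    apply Finset.sum_subset
    · exact Finset.filter_subset_filter _ Finset.subset_union_left
    · intro e he he'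
      rw [Finset.mem_filter] at he he'
      by_contra h
      exact he' ⟨MvPolynomial.mem_support_iff.2 h, he.2⟩
  rw [h1, Finset.sum_filter, Finset.sum_filter]
  have h2 : ∀ e, MvPolynomial.coeff e Q = ∑ a ∈ s, if d a = e then c a else 0 := by
    intro e
    rw [hQ, MvPolynomial.coeff_sum]
    exact Finset.sum_congr rfl fun a _ => MvPolynomial.coeff_monomial _ _ _
  have h3 : ∑ e ∈ (Q.support ∪ s.image d), (if p e then MvPolynomial.coeff e Q else 0) =
      ∑ e ∈ (Q.support ∪ s.image d), ∑ a ∈ s, if d a = e then (if p e then c a else 0) else 0 := by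
    refine Finset.sum_congr rfl fun e _ => ?_
    rw [h2]
    split_ifs with h
    · rfl
    · symm
      exact Finset.sum_eq_zero fun a _ => by split_ifs <;> rfl
  rw [h3, Finset.sum_comm]
  refine Finset.sum_congr rfl fun a ha => ?_
  rw [Finset.sum_ite_eq, if_pos]
  exact Finset.mem_union_right _ (Finset.mem_image_of_mem _ ha)

section Many

variable {k : ℕ} {m : Fin k → ℕ}

/-- The points. -/
abbrev Vt (m : Fin k → ℕ) := Σ i : Fin k, Fin (m i)

/-- The graphs on the blocks. -/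
def HG (G : SimpleGraph (Vt m)) (i : Fin k) : SimpleGraph (Fin (m i)) :=
  G.comap (fun u => ⟨i, u⟩)

/-- The relations between the blocks. -/
def EG (G : SimpleGraph (Vt m)) (p : Pr k) : Set (Fin (m p.1.1) × Fin (m p.1.2)) :=
  {q | G.Adj ⟨p.1.1, q.1⟩ ⟨p.1.2, q.2⟩}

/-- The graph with given graphs on the blocks and relations between the blocks. -/
def mkG (H : (i : Fin k) → SimpleGraph (Fin (m i)))
    (E : (p : Pr k) → Set (Fin (m p.1.1) × Fin (m p.1.2))) : SimpleGraph (Vt m) where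
  Adj a b := (∃ i u v, a = ⟨i, u⟩ ∧ b = ⟨i, v⟩ ∧ (H i).Adj u v) ∨
    (∃ (p : Pr k) (u : Fin (m p.1.1)) (v : Fin (m p.1.2)), a = ⟨p.1.1, u⟩ ∧ b = ⟨p.1.2, v⟩ ∧
      (u, v) ∈ E p) ∨
    (∃ (p : Pr k) (u : Fin (m p.1.1)) (v : Fin (m p.1.2)), b = ⟨p.1.1, u⟩ ∧ a = ⟨p.1.2, v⟩ ∧
      (u, v) ∈ E p)
  symm := ⟨by
    rintro a b (⟨i, u, v, h1, h2, h3⟩ | h | h)
    · exact Or.inl ⟨i, v, u, h2, h1, h3.symm⟩
    · exact Or.inr (Or.inr h)
    · exact Or.inr (Or.inl h)⟩
  loopless := ⟨by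
    rintro a (⟨i, u, v, h1, h2, h3⟩ | ⟨⟨⟨i, j⟩, hp⟩, u, v, h1, h2, h3⟩ |
      ⟨⟨⟨i, j⟩, hp⟩, u, v, h1, h2, h3⟩)
    · rw [h1] at h2
      cases h2
      exact (H i).irrefl h3
    · rw [h1] at h2
      have := congrArg Sigma.fst h2
      exact absurd this (ne_of_lt hp)
    · rw [h1] at h2
      have := congrArg Sigma.fst h2
      exact absurd this (ne_of_lt hp)⟩

section Adj

variable (H : (i : Fin k) → SimpleGraph (Fin (m i)))
  (E : (p : Pr k) → Set (Fin (m p.1.1) × Fin (m p.1.2)))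

theorem adj_diag (i : Fin k) (u v : Fin (m i)) :
    (mkG H E).Adj ⟨i, u⟩ ⟨i, v⟩ ↔ (H i).Adj u v := by
  constructor
  · rintro (⟨j, u', v', h1, h2, h3⟩ | ⟨⟨⟨j, j'⟩, hp⟩, u', v', h1, h2, h3⟩ |
      ⟨⟨⟨j, j'⟩, hp⟩, u', v', h1, h2, h3⟩)
    · cases h1
      cases h2
      exact h3
    · have e1 : i = j := congrArg Sigma.fst h1
      have e2 : i = j' := congrArg Sigma.fst h2
      exact absurd (e1.symm.trans e2) (ne_of_lt hp)
    · have e1 : i = j := congrArg Sigma.fst h1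
      have e2 : i = j' := congrArg Sigma.fst h2
      exact absurd (e1.symm.trans e2) (ne_of_lt hp)
  · intro h
    exact Or.inl ⟨i, u, v, rfl, rfl, h⟩

theorem adj_lt (i j : Fin k) (hij : i < j) (u : Fin (m i)) (v : Fin (m j)) :
    (mkG H E).Adj ⟨i, u⟩ ⟨j, v⟩ ↔ (u, v) ∈ E ⟨(i, j), hij⟩ := by
  constructor
  · rintro (⟨j, u', v', h1, h2, h3⟩ | ⟨⟨⟨i', j'⟩, hp⟩, u', v', h1, h2, h3⟩ |
      ⟨⟨⟨i', j'⟩, hp⟩, u', v', h1, h2, h3⟩)
    · have e1 := congrArg Sigma.fst h1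
      have e2 := congrArg Sigma.fst h2
      exact absurd (e1.trans e2.symm) (ne_of_lt hij)
    · cases h1
      cases h2
      exact h3
    · have e1 : j = i' := congrArg Sigma.fst h1
      have e2 : i = j' := congrArg Sigma.fst h2
      subst e1 e2
      exact absurd hij (not_lt_of_gt hp)
  · intro h
    exact Or.inr (Or.inl ⟨⟨(i, j), hij⟩, u, v, rfl, rfl, h⟩)

end Adj

theorem mkG_self (G : SimpleGraph (Vt m)) : mkG (HG G) (EG G) = G := by
  ext ⟨i, u⟩ ⟨j, v⟩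
  rcases lt_trichotomy i j with h | rfl | h
  · rw [adj_lt _ _ i j h]; rfl
  · rw [adj_diag]; rfl
  · rw [(mkG (HG G) (EG G)).adj_comm, adj_lt _ _ j i h, G.adj_comm]; rfl

theorem HG_mk (H : (i : Fin k) → SimpleGraph (Fin (m i)))
    (E : (p : Pr k) → Set (Fin (m p.1.1) × Fin (m p.1.2))) : HG (mkG H E) = H := by
  funext i
  ext u v
  exact adj_diag H E i u v

theorem EG_mk (H : (i : Fin k) → SimpleGraph (Fin (m i)))
    (E : (p : Pr k) → Set (Fin (m p.1.1) × Fin (m p.1.2))) : EG (mkG H E) = E := by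
  funext p
  ext ⟨u, v⟩
  exact adj_lt H E p.1.1 p.1.2 p.2 u v

theorem inv_iff (G : SimpleGraph (Vt m)) : Inv (rot m) G ↔
    (∀ i, Inv (finRotate (m i)) (HG G i)) ∧ ∀ p, InvE (EG G p) := by
  constructor
  · intro h
    exact ⟨fun i u v => h ⟨i, u⟩ ⟨i, v⟩, fun p u v => h ⟨p.1.1, u⟩ ⟨p.1.2, v⟩⟩
  · rintro ⟨h1, h2⟩ ⟨i, u⟩ ⟨j, v⟩
    rcases lt_trichotomy i j with h | rfl | h
    · exact h2 ⟨(i, j), h⟩ u v
    · exact h1 i u v
    · rw [G.adj_comm, G.adj_comm ⟨i, u⟩]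
      exact h2 ⟨(j, i), h⟩ v u

/-! ### Numbers of lines -/

theorem edge_total (G : SimpleGraph (Vt m)) :
    G.edgeSet.ncard = ∑ i, (HG G i).edgeSet.ncard + ∑ p : Pr k, (EG G p).ncard := by
  set A : Fin k → Fin k → ℕ := fun i j => ∑ u : Fin (m i), ∑ v : Fin (m j),
    if G.Adj ⟨i, u⟩ ⟨j, v⟩ then 1 else 0 with hA
  have hsym : ∀ i j, A i j = A j i := by
    intro i j
    simp only [hA]
    rw [Finset.sum_comm]
    refine Finset.sum_congr rfl fun v _ => Finset.sum_congr rfl fun u _ => ?_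
    exact if_congr (G.adj_comm _ _) rfl rfl
  have h1 : 2 * G.edgeSet.ncard = ∑ i, ∑ j, A i j := by
    rw [edge_count, Fintype.sum_sigma]
    refine Finset.sum_congr rfl fun i _ => ?_
    have h : ∀ u : Fin (m i), (∑ b : Vt m, if G.Adj ⟨i, u⟩ b then 1 else 0) =
        ∑ j, ∑ v : Fin (m j), if G.Adj ⟨i, u⟩ ⟨j, v⟩ then 1 else 0 := fun u =>
      Fintype.sum_sigma _
    simp only [h]
    exact Finset.sum_comm
  have h2 : ∀ i, A i i = 2 * (HG G i).edgeSet.ncard := by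
    intro i
    rw [edge_count]
    rfl
  have h3 : ∀ p : Pr k, A p.1.1 p.1.2 = (EG G p).ncard := by
    intro p
    have : EG G p = {q | q ∈ EG G p} := rfl
    rw [this, ncard_setOf, Fintype.sum_prod_type]
    rfl
  rw [sum_sym A hsym] at h1
  simp only [h2, h3, ← Finset.mul_sum] at h1
  omega

/-! ### Degrees -/

/-- The number of neighbours in block `j` of the first point of block `i`. -/
noncomputable def Bn (hm : ∀ i, 1 ≤ m i) (G : SimpleGraph (Vt m)) (i j : Fin k) : ℕ :=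
  ∑ v : Fin (m j), if G.Adj ⟨i, ⟨0, hm i⟩⟩ ⟨j, v⟩ then 1 else 0

theorem deg_total (hm : ∀ i, 1 ≤ m i) (G : SimpleGraph (Vt m)) (i : Fin k) :
    (G.neighborSet ⟨i, ⟨0, hm i⟩⟩).ncard = ∑ j, Bn hm G i j := by
  have : G.neighborSet ⟨i, ⟨0, hm i⟩⟩ = {b | G.Adj ⟨i, ⟨0, hm i⟩⟩ b} := rfl
  rw [this, ncard_setOf, Fintype.sum_sigma]
  rfl

theorem deg_rot {V : Type*} {σ : Equiv.Perm V} {G : SimpleGraph V} (hG : Inv σ G) (a : V) :
    (G.neighborSet (σ a)).ncard = (G.neighborSet a).ncard := by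
  have h : G.neighborSet (σ a) = σ '' G.neighborSet a := by
    ext b
    simp only [SimpleGraph.mem_neighborSet, Set.mem_image]
    constructor
    · intro h
      exact ⟨σ.symm b, by rw [← hG, Equiv.apply_symm_apply]; exact h, by simp⟩
    · rintro ⟨c, hc, rfl⟩
      exact (hG a c).2 hc
  rw [h, Set.ncard_image_of_injective _ σ.injective]

theorem rot_iterate (i : Fin k) (u : Fin (m i)) (j : ℕ) :
    (rot m)^[j] ⟨i, u⟩ = ⟨i, (finRotate (m i))^[j] u⟩ := by
  induction j with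
  | zero => rfl
  | succ j ih => rw [Function.iterate_succ_apply', Function.iterate_succ_apply', ih]; rfl

theorem deg_eq (hm : ∀ i, 1 ≤ m i) {G : SimpleGraph (Vt m)} (hG : Inv (rot m) G) (i : Fin k)
    (u : Fin (m i)) :
    (G.neighborSet ⟨i, u⟩).ncard = (G.neighborSet ⟨i, ⟨0, hm i⟩⟩).ncard := by
  have h1 : ∀ j : ℕ, (G.neighborSet ((rot m)^[j] ⟨i, ⟨0, hm i⟩⟩)).ncard =
      (G.neighborSet ⟨i, ⟨0, hm i⟩⟩).ncard := by
    intro j
    induction j with
    | zero => rfl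
    | succ j ih => rw [Function.iterate_succ_apply', deg_rot hG, ih]
  have h2 : (rot m)^[u.val] ⟨i, ⟨0, hm i⟩⟩ = ⟨i, u⟩ := by
    rw [rot_iterate]
    congr 1
    apply Fin.ext
    rw [iterate_val]
    simp [Nat.mod_eq_of_lt u.isLt]
  rw [← h2, h1]

theorem noTwo_iff (hm : ∀ i, 1 ≤ m i) {G : SimpleGraph (Vt m)} (hG : Inv (rot m) G) :
    NoTwo G ↔ ∀ i, ∑ j, Bn hm G i j ≠ 2 := by
  constructor
  · intro h i
    rw [← deg_total]
    exact h _
  · rintro h ⟨i, u⟩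
    rw [deg_eq hm hG, deg_total]
    exact h i

/-! ### The terms -/

theorem term_eq (hm : ∀ i, 1 ≤ m i) (G : SimpleGraph (Vt m)) :
    (MvPolynomial.monomial (Finsupp.equivFunOnFinite.symm fun i => ∑ j, Bn hm G i j)
      (x ^ G.edgeSet.ncard) : MvPolynomial (Fin k) R) =
    (∏ i, (MvPolynomial.C (x ^ (HG G i).edgeSet.ncard) *
      MvPolynomial.X i ^ ((HG G i).neighborSet ⟨0, hm i⟩).ncard)) *
    ∏ p : Pr k, (algebraMap R (MvPolynomial (Fin k) R) (x ^ (EG G p).ncard) *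
      MvPolynomial.X p.1.1 ^ {v | ((⟨0, hm p.1.1⟩ : Fin (m p.1.1)), v) ∈ EG G p}.ncard *
      MvPolynomial.X p.1.2 ^ {u | (u, (⟨0, hm p.1.2⟩ : Fin (m p.1.2))) ∈ EG G p}.ncard) := by
  have h1 : ∀ i, ((HG G i).neighborSet ⟨0, hm i⟩).ncard = Bn hm G i i := by
    intro i
    have : (HG G i).neighborSet ⟨0, hm i⟩ = {b | (HG G i).Adj ⟨0, hm i⟩ b} := rfl
    rw [this, ncard_setOf]
    rfl
  have h2 : ∀ p : Pr k, {v | ((⟨0, hm p.1.1⟩ : Fin (m p.1.1)), v) ∈ EG G p}.ncard =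
      Bn hm G p.1.1 p.1.2 := by
    intro p
    rw [ncard_setOf]
    rfl
  have h3 : ∀ p : Pr k, {u | (u, (⟨0, hm p.1.2⟩ : Fin (m p.1.2))) ∈ EG G p}.ncard =
      Bn hm G p.1.2 p.1.1 := by
    intro p
    rw [ncard_setOf]
    refine Finset.sum_congr rfl fun u _ => ?_
    exact if_congr (G.adj_comm _ _) rfl rfl
  simp only [h1, h2, h3, MvPolynomial.algebraMap_eq]
  rw [MvPolynomial.monomial_eq, Finsupp.prod_fintype _ _ (fun _ => pow_zero _)]
  have h4 : ∏ i, (MvPolynomial.X i : MvPolynomial (Fin k) R) ^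
      (Finsupp.equivFunOnFinite.symm fun i => ∑ j, Bn hm G i j) i =
      ∏ i, ∏ j, (MvPolynomial.X i : MvPolynomial (Fin k) R) ^ Bn hm G i j := by
    refine Finset.prod_congr rfl fun i _ => ?_
    rw [Finset.prod_pow_eq_pow_sum]
    rfl
  rw [h4, ← prod_sym, edge_total, pow_add, map_mul, ← Finset.prod_pow_eq_pow_sum,
    ← Finset.prod_pow_eq_pow_sum, map_prod, map_prod]
  simp only [Finset.prod_mul_distrib, mul_assoc]
  ring

/-- The invariant graphs. -/
noncomputable def IG (m : Fin k → ℕ) : Finset (SimpleGraph (Vt m)) :=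
  Set.Finite.toFinset (s := {G | Inv (rot m) G}) (Set.toFinite _)

/-- The invariant graphs on the blocks. -/
noncomputable def HS (m : Fin k → ℕ) (i : Fin k) : Finset (SimpleGraph (Fin (m i))) :=
  Set.Finite.toFinset (s := {H | Inv (finRotate (m i)) H}) (Set.toFinite _)

/-- The invariant relations. -/
noncomputable def ES (m : Fin k → ℕ) (p : Pr k) : Finset (Set (Fin (m p.1.1) × Fin (m p.1.2))) :=
  Set.Finite.toFinset (s := {E | InvE E}) (Set.toFinite _)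

theorem P_eq (hA : S_parA) (hB : S_parB) (hm : ∀ i, 1 ≤ m i) :
    P selfP k m = ∑ G ∈ IG m, (MvPolynomial.monomial
      (Finsupp.equivFunOnFinite.symm fun i => ∑ j, Bn hm G i j) (x ^ G.edgeSet.ncard) :
        MvPolynomial (Fin k) R) := by
  have h1 : ∀ i, Polynomial.aeval (MvPolynomial.X i : MvPolynomial (Fin k) R) (selfP (m i)) =
      ∑ H ∈ HS m i, (MvPolynomial.C (x ^ H.edgeSet.ncard) *
        MvPolynomial.X i ^ (H.neighborSet ⟨0, hm i⟩).ncard) := by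
    intro i
    rw [← hA (m i) (hm i), finsum_mem_eq_finite_toFinset_sum _ (Set.toFinite _), map_sum]
    refine Finset.sum_congr rfl fun H _ => ?_
    rw [map_mul, Polynomial.aeval_C, map_pow (Polynomial.aeval _) Polynomial.X,
      Polynomial.aeval_X]
    rfl
  have h2 : ∀ p : Pr k, pairP (MvPolynomial.X p.1.1 : MvPolynomial (Fin k) R)
      (MvPolynomial.X p.1.2) (m p.1.1) (m p.1.2) =
      ∑ E ∈ ES m p, (algebraMap R (MvPolynomial (Fin k) R) (x ^ E.ncard) *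
      MvPolynomial.X p.1.1 ^ {v | ((⟨0, hm p.1.1⟩ : Fin (m p.1.1)), v) ∈ E}.ncard *
      MvPolynomial.X p.1.2 ^ {u | (u, (⟨0, hm p.1.2⟩ : Fin (m p.1.2))) ∈ E}.ncard) := by
    intro p
    rw [← hB (m p.1.1) (m p.1.2) (hm _) (hm _) (MvPolynomial (Fin k) R),
      finsum_mem_eq_finite_toFinset_sum _ (Set.toFinite _)]
    rfl
  unfold P
  rw [← prod_Pr (fun i j => pairP (MvPolynomial.X i : MvPolynomial (Fin k) R)
    (MvPolynomial.X j) (m i) (m j))]
  simp only [h1, h2]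
  rw [Finset.prod_univ_sum, Finset.prod_univ_sum, Finset.sum_mul_sum, ← Finset.sum_product']
  symm
  refine Finset.sum_nbij' (i := fun G => (HG G, EG G)) (j := fun q => mkG q.1 q.2) ?_ ?_ ?_ ?_ ?_
  · intro G hG
    rw [IG, Set.Finite.mem_toFinset] at hG
    rw [Finset.mem_product, Fintype.mem_piFinset, Fintype.mem_piFinset]
    obtain ⟨h3, h4⟩ := (inv_iff G).1 hG
    exact ⟨fun i => by rw [HS, Set.Finite.mem_toFinset]; exact h3 i,
      fun p => by rw [ES, Set.Finite.mem_toFinset]; exact h4 p⟩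
  · rintro ⟨H, E⟩ h
    rw [Finset.mem_product, Fintype.mem_piFinset, Fintype.mem_piFinset] at h
    rw [IG, Set.Finite.mem_toFinset]
    refine (inv_iff _).2 ?_
    rw [HG_mk, EG_mk]
    refine ⟨fun i => ?_, fun p => ?_⟩
    · have := h.1 i
      rw [HS, Set.Finite.mem_toFinset] at this
      exact this
    · have := h.2 p
      rw [ES, Set.Finite.mem_toFinset] at this
      exact this
  · intro G _
    exact mkG_self G
  · rintro ⟨H, E⟩ _
    simp only [HG_mk, EG_mk]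
  · intro G _
    exact term_eq hm G

theorem parC (hA : S_parA) (hB : S_parB) : S_par := by
  intro k m hm
  rw [sum_coeff (IG m) _ _ _ (P_eq hA hB hm), W,
    finsum_mem_eq_finite_toFinset_sum _ (Set.toFinite _)]
  refine Finset.sum_congr ?_ fun _ _ => rfl
  ext G
  rw [Set.Finite.mem_toFinset, Finset.mem_filter, IG, Set.Finite.mem_toFinset]
  simp only [Set.mem_ofPred_eq]
  constructor
  · rintro ⟨h1, h2⟩
    exact ⟨h1, (noTwo_iff hm h1).1 h2⟩
  · rintro ⟨h1, h2⟩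
    exact ⟨h1, (noTwo_iff hm h1).2 h2⟩

end Many

end Pool.Agent.W903.HI
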